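import Mathlib

/-! Delta_0 formulas of arithmetic, absoluteness between the standard model and models of Robinson
arithmetic Q (weak order z + x = y). -/

namespace Pool.Agent.Helper10.PA

/-- Terms of arithmetic in `n` variables (de Bruijn indices). -/
inductive Tm (n : ℕ) : Type
  | var : Fin n → Tm n
  | zero : Tm n
  | succ : Tm n → Tm n
  | add : Tm n → Tm n → Tm n
  | mul : Tm n → Tm n → Tm n

/-- Delta_0 formulas: `bex t φ` is `∃ x ≤ t, φ`, the bound variable has index `0` in `φ`. -/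
inductive D0 : ℕ → Type
  | eq {n : ℕ} (t u : Tm n) : D0 n
  | neg {n : ℕ} (φ : D0 n) : D0 n
  | and {n : ℕ} (φ ψ : D0 n) : D0 n
  | bex {n : ℕ} (t : Tm n) (φ : D0 (n + 1)) : D0 n

/-- Structures for the language `0, S, +, *`. -/
structure AStr (M : Type*) where
  zero : M
  succ : M → M
  add : M → M → M
  mul : M → M → M

/-- The standard structure. -/
def natA : AStr ℕ := ⟨0, Nat.succ, (· + ·), (· * ·)⟩

@[simp] lemma natA_zero : natA.zero = 0 := rfl
@[simp] lemma natA_succ (x : ℕ) : natA.succ x = x + 1 := rfl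
@[simp] lemma natA_add (x y : ℕ) : natA.add x y = x + y := rfl
@[simp] lemma natA_mul (x y : ℕ) : natA.mul x y = x * y := rfl

/-- Axioms of Robinson arithmetic. -/
structure IsQ {M : Type*} (A : AStr M) : Prop where
  succ_ne_zero : ∀ x, A.succ x ≠ A.zero
  succ_inj : ∀ x y, A.succ x = A.succ y → x = y
  cases : ∀ x, x = A.zero ∨ ∃ y, x = A.succ y
  add_zero : ∀ x, A.add x A.zero = x
  add_succ : ∀ x y, A.add x (A.succ y) = A.succ (A.add x y)
  mul_zero : ∀ x, A.mul x A.zero = A.zero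
  mul_succ : ∀ x y, A.mul x (A.succ y) = A.add (A.mul x y) x

variable {M : Type*}

/-- Value of a term. -/
def Tm.eval (A : AStr M) {n : ℕ} (v : Fin n → M) : Tm n → M
  | .var i => v i
  | .zero => A.zero
  | .succ t => A.succ (t.eval A v)
  | .add t u => A.add (t.eval A v) (u.eval A v)
  | .mul t u => A.mul (t.eval A v) (u.eval A v)

/-- Truth of a Delta_0 formula. -/
def D0.eval (A : AStr M) : {n : ℕ} → D0 n → (Fin n → M) → Prop
  | _, .eq t u, v => t.eval A v = u.eval A v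
  | _, .neg φ, v => ¬ φ.eval A v
  | _, .and φ ψ, v => φ.eval A v ∧ ψ.eval A v
  | _, .bex t φ, v => ∃ x, (∃ z, A.add z x = t.eval A v) ∧ φ.eval A (Fin.cons x v)

/-- Numerals. -/
def num (A : AStr M) : ℕ → M
  | 0 => A.zero
  | k + 1 => A.succ (num A k)

section Q
variable {A : AStr M} (hA : IsQ A)
include hA

lemma num_add (a b : ℕ) : num A (a + b) = A.add (num A a) (num A b) := by
  induction b with
  | zero => simp [num, hA.add_zero]
  | succ b ih => rw [← Nat.add_assoc]; simp only [num]; rw [hA.add_succ, ih]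

lemma num_mul (a b : ℕ) : num A (a * b) = A.mul (num A a) (num A b) := by
  induction b with
  | zero => simp [num, hA.mul_zero]
  | succ b ih => rw [Nat.mul_succ, num_add hA, ih]; simp only [num]; rw [hA.mul_succ]

lemma num_inj {a b : ℕ} (h : num A a = num A b) : a = b := by
  induction a generalizing b with
  | zero =>
    cases b with
    | zero => rfl
    | succ b => exact absurd h.symm (hA.succ_ne_zero _)
  | succ a ih =>
    cases b with
    | zero => exact absurd h (hA.succ_ne_zero _)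
    | succ b => rw [ih (hA.succ_inj _ _ h)]

lemma exists_of_le_num {n : ℕ} {x z : M} (h : A.add z x = num A n) :
    ∃ k, k ≤ n ∧ x = num A k := by
  induction n generalizing x with
  | zero =>
    rcases hA.cases x with rfl | ⟨y, rfl⟩
    · exact ⟨0, le_refl _, rfl⟩
    · rw [hA.add_succ] at h; exact absurd h (hA.succ_ne_zero _)
  | succ n ih =>
    rcases hA.cases x with rfl | ⟨y, rfl⟩
    · exact ⟨0, Nat.zero_le _, rfl⟩
    · rw [hA.add_succ] at h
      obtain ⟨k, hk, rfl⟩ := ih (hA.succ_inj _ _ h)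
      exact ⟨k + 1, by omega, rfl⟩

lemma le_or_num_le (n : ℕ) (x : M) :
    (∃ z, A.add z x = num A n) ∨ (∃ z, A.add z (num A n) = x) := by
  induction n generalizing x with
  | zero => exact Or.inr ⟨x, hA.add_zero x⟩
  | succ n ih =>
    rcases hA.cases x with rfl | ⟨y, rfl⟩
    · exact Or.inl ⟨_, hA.add_zero _⟩
    · rcases ih y with ⟨z, hz⟩ | ⟨z, hz⟩
      · exact Or.inl ⟨z, by rw [hA.add_succ, hz]; rfl⟩
      · exact Or.inr ⟨z, by simp only [num]; rw [hA.add_succ, hz]⟩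

lemma Tm.eval_num {n : ℕ} (t : Tm n) (v : Fin n → ℕ) :
    t.eval A (fun i => num A (v i)) = num A (t.eval natA v) := by
  induction t with
  | var i => rfl
  | zero => rfl
  | succ t ih => simp only [Tm.eval, ih]; rfl
  | add t u iht ihu => simp only [Tm.eval, iht, ihu, natA_add]; rw [num_add hA]
  | mul t u iht ihu => simp only [Tm.eval, iht, ihu, natA_mul]; rw [num_mul hA]

/-- Absoluteness of Delta_0 formulas. -/
lemma D0.eval_num {n : ℕ} (φ : D0 n) (v : Fin n → ℕ) :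
    φ.eval A (fun i => num A (v i)) ↔ φ.eval natA v := by
  induction φ with
  | eq t u =>
    simp only [D0.eval, Tm.eval_num hA]
    exact ⟨fun h => num_inj hA h, fun h => by rw [h]⟩
  | neg φ ih => simp only [D0.eval, ih]
  | and φ ψ ih1 ih2 => simp only [D0.eval, ih1, ih2]
  | bex t φ ih =>
    simp only [D0.eval, Tm.eval_num hA]
    have key : ∀ k : ℕ, (Fin.cons (num A k) (fun i => num A (v i)) : Fin _ → M)
        = fun i => num A ((Fin.cons k v : Fin _ → ℕ) i) := by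
      intro k; funext i; refine Fin.cases ?_ (fun j => ?_) i <;> simp
    constructor
    · rintro ⟨x, ⟨z, hz⟩, hx⟩
      obtain ⟨k, hk, rfl⟩ := exists_of_le_num hA hz
      refine ⟨k, ⟨t.eval natA v - k, ?_⟩, ?_⟩
      · simp only [natA_add]; omega
      · rw [key, ih] at hx; exact hx
    · rintro ⟨k, ⟨z, hz⟩, hk⟩
      refine ⟨num A k, ⟨num A z, ?_⟩, ?_⟩
      · rw [← num_add hA, ← hz]; rfl
      · rw [key, ih]; exact hk

end Q

/-! ### Substitution -/

/-- Renaming in terms. -/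
def Tm.rename {n m : ℕ} (f : Fin n → Fin m) : Tm n → Tm m
  | .var i => .var (f i)
  | .zero => .zero
  | .succ t => .succ (t.rename f)
  | .add t u => .add (t.rename f) (u.rename f)
  | .mul t u => .mul (t.rename f) (u.rename f)

lemma Tm.eval_rename (A : AStr M) {n m : ℕ} (f : Fin n → Fin m) (t : Tm n) (v : Fin m → M) :
    (t.rename f).eval A v = t.eval A (fun i => v (f i)) := by
  induction t with
  | var i => rfl
  | zero => rfl
  | succ t ih => simp only [Tm.rename, Tm.eval, ih]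
  | add t u iht ihu => simp only [Tm.rename, Tm.eval, iht, ihu]
  | mul t u iht ihu => simp only [Tm.rename, Tm.eval, iht, ihu]

/-- Substitution in terms. -/
def Tm.subst {n m : ℕ} (s : Fin n → Tm m) : Tm n → Tm m
  | .var i => s i
  | .zero => .zero
  | .succ t => .succ (t.subst s)
  | .add t u => .add (t.subst s) (u.subst s)
  | .mul t u => .mul (t.subst s) (u.subst s)

lemma Tm.eval_subst (A : AStr M) {n m : ℕ} (s : Fin n → Tm m) (t : Tm n) (v : Fin m → M) :
    (t.subst s).eval A v = t.eval A (fun i => (s i).eval A v) := by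
  induction t with
  | var i => rfl
  | zero => rfl
  | succ t ih => simp only [Tm.subst, Tm.eval, ih]
  | add t u iht ihu => simp only [Tm.subst, Tm.eval, iht, ihu]
  | mul t u iht ihu => simp only [Tm.subst, Tm.eval, iht, ihu]

/-- Lifting of a substitution under a binder. -/
def liftS {n m : ℕ} (s : Fin n → Tm m) : Fin (n + 1) → Tm (m + 1) :=
  Fin.cons (.var 0) (fun i => (s i).rename Fin.succ)

/-- Substitution in Delta_0 formulas. -/
def D0.subst : {n m : ℕ} → (Fin n → Tm m) → D0 n → D0 m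
  | _, _, s, .eq t u => .eq (t.subst s) (u.subst s)
  | _, _, s, .neg φ => .neg (φ.subst s)
  | _, _, s, .and φ ψ => .and (φ.subst s) (ψ.subst s)
  | _, _, s, .bex t φ => .bex (t.subst s) (φ.subst (liftS s))

lemma D0.eval_subst (A : AStr M) {n : ℕ} (φ : D0 n) : ∀ {m : ℕ} (s : Fin n → Tm m)
    (v : Fin m → M), (φ.subst s).eval A v ↔ φ.eval A (fun i => (s i).eval A v) := by
  induction φ with
  | eq t u => intro m s v; simp only [D0.subst, D0.eval, Tm.eval_subst]
  | neg φ ih => intro m s v; simp only [D0.subst, D0.eval, ih]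
  | and φ ψ ih1 ih2 => intro m s v; simp only [D0.subst, D0.eval, ih1, ih2]
  | bex t φ ih =>
    intro m s v
    simp only [D0.subst, D0.eval, Tm.eval_subst, ih]
    have key : ∀ x : M, (fun i => (liftS s i).eval A (Fin.cons x v))
        = (Fin.cons x (fun i => (s i).eval A v) : Fin _ → M) := by
      intro x; funext i
      refine Fin.cases ?_ (fun j => ?_) i
      · simp [liftS, Tm.eval]
      · simp [liftS, Tm.eval_rename]
    simp only [key]

/-! ### Definable functions and relations on the standard model -/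

/-- `f` is given by a term. -/
def IsTm {n : ℕ} (f : (Fin n → ℕ) → ℕ) : Prop := ∃ t : Tm n, ∀ v, t.eval natA v = f v

lemma IsTm.var {n : ℕ} (i : Fin n) : IsTm (fun v => v i) := ⟨.var i, fun _ => rfl⟩

lemma IsTm.const {n : ℕ} (k : ℕ) : IsTm (fun _ : Fin n → ℕ => k) := by
  induction k with
  | zero => exact ⟨.zero, fun _ => rfl⟩
  | succ k ih =>
    obtain ⟨t, ht⟩ := ih
    exact ⟨.succ t, fun v => by simp [Tm.eval, ht]⟩

lemma IsTm.add {n : ℕ} {f g : (Fin n → ℕ) → ℕ} (hf : IsTm f) (hg : IsTm g) :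
    IsTm (fun v => f v + g v) := by
  obtain ⟨t, ht⟩ := hf; obtain ⟨u, hu⟩ := hg
  exact ⟨.add t u, fun v => by simp [Tm.eval, ht, hu]⟩

lemma IsTm.mul {n : ℕ} {f g : (Fin n → ℕ) → ℕ} (hf : IsTm f) (hg : IsTm g) :
    IsTm (fun v => f v * g v) := by
  obtain ⟨t, ht⟩ := hf; obtain ⟨u, hu⟩ := hg
  exact ⟨.mul t u, fun v => by simp [Tm.eval, ht, hu]⟩

lemma IsTm.comp {n m : ℕ} {f : (Fin n → ℕ) → ℕ} (hf : IsTm f) {g : Fin n → (Fin m → ℕ) → ℕ}
    (hg : ∀ i, IsTm (g i)) : IsTm (fun v => f (fun i => g i v)) := by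
  obtain ⟨t, ht⟩ := hf
  choose s hs using hg
  exact ⟨t.subst s, fun v => by simp [Tm.eval_subst, hs, ht]⟩

/-- Delta_0 definable relation. -/
def IsD0 {n : ℕ} (R : (Fin n → ℕ) → Prop) : Prop := ∃ φ : D0 n, ∀ v, φ.eval natA v ↔ R v

lemma IsD0.of_iff {n : ℕ} {R S : (Fin n → ℕ) → Prop} (hR : IsD0 R) (h : ∀ v, S v ↔ R v) :
    IsD0 S := by
  obtain ⟨φ, hφ⟩ := hR
  exact ⟨φ, fun v => (hφ v).trans (h v).symm⟩

lemma IsD0.eq {n : ℕ} {f g : (Fin n → ℕ) → ℕ} (hf : IsTm f) (hg : IsTm g) :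
    IsD0 (fun v => f v = g v) := by
  obtain ⟨t, ht⟩ := hf; obtain ⟨u, hu⟩ := hg
  exact ⟨.eq t u, fun v => by simp [D0.eval, ht, hu]⟩

lemma IsD0.not {n : ℕ} {R : (Fin n → ℕ) → Prop} (hR : IsD0 R) : IsD0 (fun v => ¬ R v) := by
  obtain ⟨φ, hφ⟩ := hR
  exact ⟨.neg φ, fun v => by simp [D0.eval, hφ]⟩

lemma IsD0.and {n : ℕ} {R S : (Fin n → ℕ) → Prop} (hR : IsD0 R) (hS : IsD0 S) :
    IsD0 (fun v => R v ∧ S v) := by
  obtain ⟨φ, hφ⟩ := hR; obtain ⟨ψ, hψ⟩ := hS
  exact ⟨.and φ ψ, fun v => by simp [D0.eval, hφ, hψ]⟩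

lemma IsD0.or {n : ℕ} {R S : (Fin n → ℕ) → Prop} (hR : IsD0 R) (hS : IsD0 S) :
    IsD0 (fun v => R v ∨ S v) :=
  (hR.not.and hS.not).not.of_iff fun v => by tauto

lemma IsD0.comp {n m : ℕ} {R : (Fin n → ℕ) → Prop} (hR : IsD0 R)
    {g : Fin n → (Fin m → ℕ) → ℕ} (hg : ∀ i, IsTm (g i)) : IsD0 (fun v => R (fun i => g i v)) := by
  obtain ⟨φ, hφ⟩ := hR
  choose s hs using hg
  exact ⟨φ.subst s, fun v => by simp [D0.eval_subst, hs, hφ]⟩

lemma IsD0.bex {n : ℕ} {f : (Fin n → ℕ) → ℕ} (hf : IsTm f) {R : (Fin (n + 1) → ℕ) → Prop}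
    (hR : IsD0 R) : IsD0 (fun v => ∃ x, x ≤ f v ∧ R (Fin.cons x v)) := by
  obtain ⟨t, ht⟩ := hf; obtain ⟨φ, hφ⟩ := hR
  refine ⟨.bex t φ, fun v => ?_⟩
  simp only [D0.eval, ht, hφ, natA_add]
  constructor
  · rintro ⟨x, ⟨z, hz⟩, hx⟩; exact ⟨x, by omega, hx⟩
  · rintro ⟨x, hx, h⟩; exact ⟨x, ⟨f v - x, by omega⟩, h⟩

lemma IsD0.ball {n : ℕ} {f : (Fin n → ℕ) → ℕ} (hf : IsTm f) {R : (Fin (n + 1) → ℕ) → Prop}
    (hR : IsD0 R) : IsD0 (fun v => ∀ x, x ≤ f v → R (Fin.cons x v)) :=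
  (IsD0.bex hf hR.not).not.of_iff fun v => by push Not; rfl

lemma IsD0.le {n : ℕ} {f g : (Fin n → ℕ) → ℕ} (hf : IsTm f) (hg : IsTm g) :
    IsD0 (fun v => f v ≤ g v) := by
  have h : IsD0 (fun w : Fin (n + 1) → ℕ => w 0 + f (fun i => w i.succ) = g (fun i => w i.succ)) :=
    IsD0.eq ((IsTm.var 0).add (hf.comp fun i => IsTm.var _)) (hg.comp fun i => IsTm.var _)
  refine (IsD0.bex hg h).of_iff fun v => ?_
  simp only [Fin.cons_zero, Fin.cons_succ]
  constructor
  · intro hle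
    refine ⟨g v - f v, Nat.sub_le _ _, ?_⟩
    change g v - f v + f v = g v
    omega
  · rintro ⟨x, -, hx⟩
    change x + f v = g v at hx
    omega

lemma IsD0.lt {n : ℕ} {f g : (Fin n → ℕ) → ℕ} (hf : IsTm f) (hg : IsTm g) :
    IsD0 (fun v => f v < g v) :=
  (IsD0.le hg hf).not.of_iff fun v => by omega

end Pool.Agent.Helper10.PA
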