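import Pool.Agent.Helper10.PA.Rosser
import Pool.Agent.Helper27.Sat

/-! Rosser separation in completions of Peano arithmetic, in the syntax of
`Pool.Agent.Helper30.SatB.Defs`. -/

set_option autoImplicit false

namespace Pool.Agent.Helper10.PA

open FirstOrder FirstOrder.Language Pool.Agent.Helper30.SatB

/-! ### The arithmetical structure of a structure for the language of arithmetic -/

section Str

variable (M : Type) [arithLang.Structure M]

/-- The arithmetical structure given by a first-order structure. -/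
def aStr : AStr M := ⟨pZero M, pSucc, pAdd, pMul⟩

end Str

/-! ### Translation of terms and formulas -/

/-- The term `0`. -/
def tZero {n : ℕ} : arithLang.Term (Empty ⊕ Fin n) :=
  Term.func (l := 0) ⟨0, Or.inl ⟨rfl, rfl⟩⟩ ![]

/-- The successor of a term. -/
def tSucc {n : ℕ} (t : arithLang.Term (Empty ⊕ Fin n)) : arithLang.Term (Empty ⊕ Fin n) :=
  Term.func (l := 1) ⟨0, Or.inr (Or.inl ⟨rfl, rfl⟩)⟩ ![t]

/-- The sum of terms. -/
def tAdd {n : ℕ} (t u : arithLang.Term (Empty ⊕ Fin n)) : arithLang.Term (Empty ⊕ Fin n) :=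
  Term.func (l := 2) ⟨0, Or.inr (Or.inr ⟨rfl, Nat.zero_lt_two⟩)⟩ ![t, u]

/-- The product of terms. -/
def tMul {n : ℕ} (t u : arithLang.Term (Empty ⊕ Fin n)) : arithLang.Term (Empty ⊕ Fin n) :=
  Term.func (l := 2) ⟨1, Or.inr (Or.inr ⟨rfl, Nat.one_lt_two⟩)⟩ ![t, u]

section Str

variable {M : Type} [arithLang.Structure M] {n : ℕ} (w : Empty ⊕ Fin n → M)

lemma realize_tZero : (tZero : arithLang.Term (Empty ⊕ Fin n)).realize w = pZero M := by
  simp only [tZero, Term.realize, pZero]
  congr 1
  funext i
  exact i.elim0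

lemma realize_tSucc (t : arithLang.Term (Empty ⊕ Fin n)) :
    (tSucc t).realize w = pSucc (t.realize w) := by
  simp only [tSucc, Term.realize, pSucc]
  congr 1
  funext i
  fin_cases i
  rfl

lemma realize_tAdd (t u : arithLang.Term (Empty ⊕ Fin n)) :
    (tAdd t u).realize w = pAdd (t.realize w) (u.realize w) := by
  simp only [tAdd, Term.realize, pAdd]
  congr 1
  funext i
  fin_cases i <;> rfl

lemma realize_tMul (t u : arithLang.Term (Empty ⊕ Fin n)) :
    (tMul t u).realize w = pMul (t.realize w) (u.realize w) := by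
  simp only [tMul, Term.realize, pMul]
  congr 1
  funext i
  fin_cases i <;> rfl

end Str

/-- Translation of terms: the de Bruijn index `i` becomes the level `n - 1 - i`. -/
def Tm.tr {n : ℕ} : Tm n → arithLang.Term (Empty ⊕ Fin n)
  | .var i => Term.var (Sum.inr (Fin.rev i))
  | .zero => tZero
  | .succ t => tSucc t.tr
  | .add t u => tAdd t.tr u.tr
  | .mul t u => tMul t.tr u.tr

/-- Translation of formulas. -/
def D0.tr : {n : ℕ} → D0 n → arithLang.BoundedFormula Empty n
  | _, .eq t u => .equal t.tr u.tr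
  | _, .neg φ => φ.tr.not
  | _, .and φ ψ => φ.tr ⊓ ψ.tr
  | n, .bex t φ => .ex (.ex (.equal (n := n + 1 + 1) (Tm.tr (.add (.var 0) (.var 1)))
      (Tm.tr (t.rename fun i => i.succ.succ))) ⊓ φ.tr)

section Str

variable {M : Type} [arithLang.Structure M]

omit [arithLang.Structure M] in
lemma snoc_rev {n : ℕ} (v : Fin n → M) (x : M) :
    (fun i : Fin (n + 1) => (Fin.snoc v x : Fin (n + 1) → M) (Fin.rev i)) =
      (Fin.cons x fun i => v (Fin.rev i) : Fin (n + 1) → M) := by
  funext i
  refine Fin.cases ?_ (fun j => ?_) i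
  · rw [Fin.rev_zero, Fin.snoc_last, Fin.cons_zero]
  · rw [Fin.rev_succ, Fin.snoc_castSucc, Fin.cons_succ]

lemma Tm.realize_tr {n : ℕ} (t : Tm n) (v : Fin n → M) :
    t.tr.realize (Sum.elim (default : Empty → M) v) = t.eval (aStr M) fun i => v (Fin.rev i) := by
  induction t with
  | var i => rfl
  | zero => exact realize_tZero _
  | succ t ih => simp only [Tm.tr, realize_tSucc, Tm.eval, ih]; rfl
  | add t u iht ihu => simp only [Tm.tr, realize_tAdd, Tm.eval, iht, ihu]; rfl
  | mul t u iht ihu => simp only [Tm.tr, realize_tMul, Tm.eval, iht, ihu]; rfl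

lemma D0.realize_tr {n : ℕ} (φ : D0 n) : ∀ (v : Fin n → M),
    φ.tr.Realize (default : Empty → M) v ↔ φ.eval (aStr M) fun i => v (Fin.rev i) := by
  induction φ with
  | eq t u =>
    intro v
    change t.tr.realize _ = u.tr.realize _ ↔ _
    rw [Tm.realize_tr, Tm.realize_tr]
    rfl
  | neg φ ih =>
    intro v
    simp only [D0.tr, BoundedFormula.realize_not, ih, D0.eval]
  | and φ ψ ih1 ih2 =>
    intro v
    simp only [D0.tr, BoundedFormula.realize_inf, ih1, ih2, D0.eval]
  | bex t φ ih =>
    intro v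
    simp only [D0.tr, BoundedFormula.realize_ex, BoundedFormula.realize_inf, ih, D0.eval]
    refine exists_congr fun x => and_congr (exists_congr fun z => ?_) ?_
    · change (Tm.tr (.add (.var 0) (.var 1))).realize _ = (Tm.tr (t.rename _)).realize _ ↔ _
      rw [Tm.realize_tr, Tm.realize_tr, snoc_rev, snoc_rev, Tm.eval_rename]
      rfl
    · rw [snoc_rev]

/-! ### Models of Peano arithmetic are models of Robinson arithmetic -/

theorem isQ_of_peanoModel (h : PeanoModel M) : IsQ (aStr M) where
  succ_ne_zero := h.succ_ne_zero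
  succ_inj := h.succ_inj
  add_zero := h.add_zero
  add_succ := h.add_succ
  mul_zero := h.mul_zero
  mul_succ := h.mul_succ
  cases := by
    let φ : arithLang.BoundedFormula Empty (0 + 1) :=
      BoundedFormula.equal (Term.var (Sum.inr 0)) tZero ⊔
        .ex (BoundedFormula.equal (n := 0 + 1 + 1) (Term.var (Sum.inr 0))
          (tSucc (Term.var (Sum.inr 1))))
    have key : ∀ (v : Fin 0 → M) (x : M), φ.Realize default (Fin.snoc v x : Fin (0 + 1) → M) ↔
        (x = pZero M ∨ ∃ y, x = pSucc y) := by
      intro v x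
      simp only [φ, BoundedFormula.realize_sup, BoundedFormula.realize_ex]
      refine or_congr ?_ (exists_congr fun y => ?_)
      · change (Term.var (Sum.inr 0)).realize _ = tZero.realize _ ↔ _
        rw [realize_tZero]
        rfl
      · change (Term.var (Sum.inr 0)).realize _ = (tSucc (Term.var (Sum.inr 1))).realize _ ↔ _
        rw [realize_tSucc]
        rfl
    intro x
    refine (key default x).1 (h.induction 0 φ default ?_ ?_ x)
    · rw [key]; exact Or.inl rfl
    · intro y _; rw [key]; exact Or.inr ⟨y, rfl⟩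

end Str

/-! ### The separating sentences -/

/-- Numerals as terms. -/
def tNum (n : ℕ) : ℕ → arithLang.Term (Empty ⊕ Fin n)
  | 0 => tZero
  | e + 1 => tSucc (tNum n e)

lemma realize_tNum {M : Type} [arithLang.Structure M] {n : ℕ} (w : Empty ⊕ Fin n → M) (e : ℕ) :
    (tNum n e).realize w = num (aStr M) e := by
  induction e with
  | zero => exact realize_tZero _
  | succ e ih => rw [tNum, realize_tSucc, ih]; rfl

/-- The sentence `∃ x, x = e ∧ ∃ s, ρ(s, x)`. -/
def sent (ρ : D0 2) (e : ℕ) : arithLang.BoundedFormula Empty 0 :=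
  .ex (.equal (n := 0 + 1) (Term.var (Sum.inr 0)) (tNum (0 + 1) e) ⊓ .ex ρ.tr)

lemma realize_sent {M : Type} [arithLang.Structure M] (ρ : D0 2) (e : ℕ) (v : Fin 0 → M) :
    (sent ρ e).Realize (default : Empty → M) v ↔
      ∃ s, ρ.eval (aStr M) ![s, num (aStr M) e] := by
  simp only [sent, BoundedFormula.realize_ex, BoundedFormula.realize_inf]
  have h1 : ∀ x : M, (BoundedFormula.equal (n := 0 + 1) (Term.var (Sum.inr 0))
      (tNum (0 + 1) e)).Realize (default : Empty → M) (Fin.snoc v x) ↔
      x = num (aStr M) e := by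
    intro x
    change (Term.var (Sum.inr 0)).realize _ = (tNum (0 + 1) e).realize _ ↔ _
    rw [realize_tNum]
    rfl
  simp only [h1, exists_eq_left]
  refine exists_congr fun s => ?_
  rw [D0.realize_tr, snoc_rev, snoc_rev]
  have h2 : (Fin.cons s (Fin.cons (num (aStr M) e) fun i => v (Fin.rev i)) : Fin (0 + 1 + 1) → M) =
      ![s, num (aStr M) e] := by
    funext i
    fin_cases i <;> rfl
  rw [h2]

/-- The code of a numeral. -/
def numCode : ℕ → ℕ
  | 0 => Nat.pair (Nat.pair 0 0 + 1) (Encodable.encode ([] : List ℕ))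
  | e + 1 => Nat.pair (Nat.pair 1 0 + 1) (Encodable.encode [numCode e])

lemma termCode_tNum (n e : ℕ) : termCode (tNum n e) = numCode e := by
  induction e with
  | zero => simp [tNum, tZero, termCode, numCode]
  | succ e ih =>
    simp only [tNum, tSucc, termCode, numCode]
    rw [← ih]
    simp [List.ofFn_succ]

lemma primrec_numCode : Primrec numCode := by
  have h : Primrec (fun e : ℕ => (Nat.rec (Nat.pair (Nat.pair 0 0 + 1)
      (Encodable.encode ([] : List ℕ)))
      (fun _ c => Nat.pair (Nat.pair 1 0 + 1) (Encodable.encode [c])) e : ℕ)) := by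
    refine Primrec.nat_rec₁ _ ?_
    refine (Primrec₂.natPair.comp (Primrec.const _) (Primrec.encode.comp
      (Primrec.list_cons.comp Primrec.snd (Primrec.const [])))).to₂
  refine h.of_eq fun e => ?_
  induction e with
  | zero => rfl
  | succ e ih => rw [numCode, ← ih]

/-- The code of the sentence `sent ρ e`, from the code `r` of `∃' ρ` and the code `c` of `e`. -/
def sentCode (r c : ℕ) : ℕ :=
  Nat.pair 3 (Nat.pair (Nat.pair 4 (Nat.pair 3 (Nat.pair
    (Nat.pair 3 (Nat.pair (Nat.pair 3 (Nat.pair
      (Nat.pair 1 (Nat.pair (Nat.pair 0 0) c))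
      (Nat.pair 3 (Nat.pair r (Nat.pair 0 0))))) (Nat.pair 0 0))) (Nat.pair 0 0)))) (Nat.pair 0 0))

lemma formulaCode_sent' (ρ : D0 2) (e : ℕ) :
    formulaCode (sent ρ e) =
      sentCode (formulaCode (BoundedFormula.ex (L := arithLang) (α := Empty) (n := 1) ρ.tr))
        (termCode (tNum (0 + 1) e)) := rfl

lemma formulaCode_sent (ρ : D0 2) (e : ℕ) :
    formulaCode (sent ρ e) =
      sentCode (formulaCode (BoundedFormula.ex (L := arithLang) (α := Empty) (n := 1) ρ.tr))
        (numCode e) := by
  rw [formulaCode_sent', termCode_tNum]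

lemma primrec_pair_const (a : ℕ) {f : ℕ → ℕ} (hf : Primrec f) :
    Primrec fun e => Nat.pair a (f e) := Primrec₂.natPair.comp (Primrec.const a) hf

lemma primrec_const_pair (a : ℕ) {f : ℕ → ℕ} (hf : Primrec f) :
    Primrec fun e => Nat.pair (f e) a := Primrec₂.natPair.comp hf (Primrec.const a)

lemma primrec_sentCode (r : ℕ) : Primrec fun e => sentCode r (numCode e) := by
  unfold sentCode
  exact primrec_pair_const _ (primrec_const_pair _ (primrec_pair_const _ (primrec_pair_const _
    (primrec_const_pair _ (primrec_pair_const _ (primrec_const_pair _ (primrec_pair_const _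
      (primrec_const_pair _ (primrec_pair_const _ (primrec_pair_const _
        primrec_numCode))))))))))

theorem pa_separation : ∃ s : ℕ → ℕ, Computable s ∧ ∀ T : arithLang.Theory, T.IsMaximal →
    (∀ (M : Type) [arithLang.Structure M] [Nonempty M], M ⊨ T → PeanoModel M) → ∀ e : ℕ,
      (1 ∈ Nat.Partrec.Code.eval (Denumerable.ofNat Nat.Partrec.Code e) e →
        ∃ φ ∈ T, formulaCode φ = s e) ∧
      (0 ∈ Nat.Partrec.Code.eval (Denumerable.ofNat Nat.Partrec.Code e) e →
        ¬ ∃ φ ∈ T, formulaCode φ = s e) := by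
  obtain ⟨ρ, hρ⟩ := rosser.{0} (P := fun e => 1 ∈ diagU e) (R := fun e => 0 ∈ diagU e)
    (isS1_diagU 1) (isS1_diagU 0) fun e h0 h1 => by
      have := Part.mem_unique h0 h1
      omega
  refine ⟨_, (primrec_sentCode
    (formulaCode (BoundedFormula.ex (L := arithLang) (α := Empty) (n := 1) ρ.tr))).to_comp, ?_⟩
  intro T hT hPA e
  obtain ⟨M⟩ := hT.1
  have hM : IsQ (aStr M) := isQ_of_peanoModel (hPA M inferInstance)
  have h1 := hρ M (aStr M) hM e
  have hiff : sent ρ e ∈ T ↔ ∃ s, ρ.eval (aStr M) ![s, num (aStr M) e] := by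
    rw [← realize_sent (M := M) ρ e default]
    constructor
    · intro h
      exact Theory.realize_sentence_of_mem T h
    · intro h
      rcases hT.2 (sent ρ e) with h2 | h2
      · exact h2
      · exact absurd h ((Sentence.realize_not M).1 (Theory.realize_sentence_of_mem T h2))
  rw [← formulaCode_sent]
  refine ⟨fun h => ⟨sent ρ e, hiff.2 (h1.1 h), rfl⟩, ?_⟩
  rintro h ⟨φ, hφ, hc⟩
  have := Pool.Agent.Helper27.Sat.formulaCode_injective hc
  rw [this] at hφ
  exact h1.2 h (hiff.1 hφ)

end Pool.Agent.Helper10.PA
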