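import Mathlib
import Pool.Agent.Helper10.PA.Delta0

/-! Sigma_1 relations on the natural numbers; graphs of partial recursive functions are Sigma_1. -/

namespace Pool.Agent.Helper10.PA

/-- Sigma_1 relation: one unbounded existential quantifier in front of a Delta_0 relation. -/
def IsS1 {n : ℕ} (R : (Fin n → ℕ) → Prop) : Prop :=
  ∃ Q : (Fin (n + 1) → ℕ) → Prop, IsD0 Q ∧ ∀ v, R v ↔ ∃ s, Q (Fin.cons s v)

lemma IsS1.of_iff {n : ℕ} {R S : (Fin n → ℕ) → Prop} (hR : IsS1 R) (h : ∀ v, S v ↔ R v) :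
    IsS1 S := by
  obtain ⟨Q, hQ, hR⟩ := hR
  exact ⟨Q, hQ, fun v => (h v).trans (hR v)⟩

lemma IsD0.s1 {n : ℕ} {R : (Fin n → ℕ) → Prop} (hR : IsD0 R) : IsS1 R := by
  refine ⟨fun w => R (fun i => w i.succ), hR.comp fun i => IsTm.var _, fun v => ?_⟩
  simp

/-- Selection of variables. -/
def sk1 (n : ℕ) : Fin (n + 1) → Fin (n + 2) := Fin.cases 0 (fun j => j.succ.succ)

def sk2 (n : ℕ) : Fin (n + 2) → Fin (n + 3) := Fin.cases 0 (Fin.cases 1 (fun j => j.succ.succ.succ))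

lemma cons_sk1 {n : ℕ} (a u : ℕ) (v : Fin n → ℕ) :
    (fun i => (Fin.cons a (Fin.cons u v : Fin (n + 1) → ℕ) : Fin (n + 2) → ℕ) (sk1 n i))
      = Fin.cons a v := by
  funext i
  refine Fin.cases ?_ (fun j => ?_) i
  · simp [sk1]
  · simp [sk1]

lemma cons_sk2 {n : ℕ} (s x u : ℕ) (v : Fin n → ℕ) :
    (fun i => (Fin.cons s (Fin.cons x (Fin.cons u v : Fin (n + 1) → ℕ) : Fin (n + 2) → ℕ)
      : Fin (n + 3) → ℕ) (sk2 n i)) = Fin.cons s (Fin.cons x v : Fin (n + 1) → ℕ) := by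
  funext i
  refine Fin.cases ?_ (fun j => Fin.cases ?_ (fun k => ?_) j) i
  · simp [sk2]
  · have h1 : (1 : Fin (n + 3)) = Fin.succ 0 := rfl
    simp only [sk2, Fin.cases_succ, Fin.cases_zero, h1, Fin.cons_succ, Fin.cons_zero]
  · simp [sk2]

lemma IsS1.and {n : ℕ} {R S : (Fin n → ℕ) → Prop} (hR : IsS1 R) (hS : IsS1 S) :
    IsS1 (fun v => R v ∧ S v) := by
  obtain ⟨Q1, h1, hR⟩ := hR
  obtain ⟨Q2, h2, hS⟩ := hS
  have d1 : IsD0 (fun w : Fin (n + 1) → ℕ => ∃ a, a ≤ w 0 ∧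
      Q1 (fun i => (Fin.cons a w : Fin (n + 2) → ℕ) (sk1 n i))) :=
    IsD0.bex (IsTm.var 0) (h1.comp fun i => IsTm.var (sk1 n i))
  have d2 : IsD0 (fun w : Fin (n + 1) → ℕ => ∃ a, a ≤ w 0 ∧
      Q2 (fun i => (Fin.cons a w : Fin (n + 2) → ℕ) (sk1 n i))) :=
    IsD0.bex (IsTm.var 0) (h2.comp fun i => IsTm.var (sk1 n i))
  refine ⟨_, d1.and d2, fun v => ?_⟩
  simp only [cons_sk1, Fin.cons_zero, hR, hS]
  constructor
  · rintro ⟨⟨a, ha⟩, ⟨b, hb⟩⟩
    exact ⟨max a b, ⟨a, le_max_left _ _, ha⟩, ⟨b, le_max_right _ _, hb⟩⟩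
  · rintro ⟨u, ⟨a, -, ha⟩, ⟨b, -, hb⟩⟩
    exact ⟨⟨a, ha⟩, ⟨b, hb⟩⟩

lemma IsS1.or {n : ℕ} {R S : (Fin n → ℕ) → Prop} (hR : IsS1 R) (hS : IsS1 S) :
    IsS1 (fun v => R v ∨ S v) := by
  obtain ⟨Q1, h1, hR⟩ := hR
  obtain ⟨Q2, h2, hS⟩ := hS
  refine ⟨_, h1.or h2, fun v => ?_⟩
  simp only [hR, hS]
  constructor
  · rintro (⟨a, ha⟩ | ⟨a, ha⟩)
    · exact ⟨a, Or.inl ha⟩
    · exact ⟨a, Or.inr ha⟩
  · rintro ⟨a, ha | ha⟩
    · exact Or.inl ⟨a, ha⟩
    · exact Or.inr ⟨a, ha⟩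

lemma IsS1.ex {n : ℕ} {S : (Fin (n + 1) → ℕ) → Prop} (hS : IsS1 S) :
    IsS1 (fun v => ∃ x, S (Fin.cons x v)) := by
  obtain ⟨Q, hQ, hS⟩ := hS
  have d0 : IsD0 (fun w : Fin (n + 2) → ℕ => ∃ s, s ≤ w 1 ∧
      Q (fun i => (Fin.cons s w : Fin (n + 3) → ℕ) (sk2 n i))) :=
    IsD0.bex (IsTm.var 1) (hQ.comp fun i => IsTm.var (sk2 n i))
  have d1 := IsD0.bex (IsTm.var (0 : Fin (n + 1))) d0
  refine ⟨_, d1, fun v => ?_⟩
  have h1 : (1 : Fin (n + 2)) = Fin.succ 0 := rfl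
  simp only [cons_sk2, Fin.cons_zero, hS, h1, Fin.cons_succ]
  constructor
  · rintro ⟨x, s, h⟩
    exact ⟨max x s, x, le_max_left _ _, s, le_max_right _ _, h⟩
  · rintro ⟨u, x, -, s, -, h⟩
    exact ⟨x, s, h⟩

lemma IsS1.comp {n m : ℕ} {R : (Fin n → ℕ) → Prop} (hR : IsS1 R)
    {g : Fin n → (Fin m → ℕ) → ℕ} (hg : ∀ i, IsTm (g i)) : IsS1 (fun v => R (fun i => g i v)) := by
  obtain ⟨Q, hQ, hR⟩ := hR
  let g' : Fin (n + 1) → (Fin (m + 1) → ℕ) → ℕ :=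
    Fin.cases (fun w => w 0) (fun i w => g i (fun j => w j.succ))
  have hg' : ∀ i, IsTm (g' i) := by
    intro i
    refine Fin.cases ?_ (fun j => ?_) i
    · exact IsTm.var 0
    · exact (hg j).comp fun k => IsTm.var _
  refine ⟨_, hQ.comp hg', fun v => ?_⟩
  simp only [hR]
  have key : ∀ s : ℕ, (fun i => g' i (Fin.cons s v : Fin (m + 1) → ℕ))
      = (Fin.cons s (fun i => g i v) : Fin (n + 1) → ℕ) := by
    intro s; funext i
    refine Fin.cases ?_ (fun j => ?_) i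
    · simp [g']
    · simp [g']
  simp only [key]

lemma IsS1.ball {n : ℕ} {f : (Fin n → ℕ) → ℕ} (hf : IsTm f) {S : (Fin (n + 1) → ℕ) → Prop}
    (hS : IsS1 S) : IsS1 (fun v => ∀ x, x < f v → S (Fin.cons x v)) := by
  obtain ⟨Q, hQ, hS⟩ := hS
  have d0 : IsD0 (fun w : Fin (n + 2) → ℕ => ∃ s, s ≤ w 1 ∧
      Q (fun i => (Fin.cons s w : Fin (n + 3) → ℕ) (sk2 n i))) :=
    IsD0.bex (IsTm.var 1) (hQ.comp fun i => IsTm.var (sk2 n i))
  have d1 : IsD0 (fun w : Fin (n + 2) → ℕ => ¬ (w 0 < f (fun i => w i.succ.succ)) ∨ ∃ s, s ≤ w 1 ∧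
      Q (fun i => (Fin.cons s w : Fin (n + 3) → ℕ) (sk2 n i))) :=
    (IsD0.lt (IsTm.var 0) (hf.comp fun i => IsTm.var _)).not.or d0
  have d2 := IsD0.ball (f := fun w : Fin (n + 1) → ℕ => f (fun i => w i.succ))
    (hf.comp fun i => IsTm.var _) d1
  refine ⟨_, d2, fun v => ?_⟩
  have h1 : (1 : Fin (n + 2)) = Fin.succ 0 := rfl
  simp only [cons_sk2, Fin.cons_zero, hS, h1, Fin.cons_succ]
  constructor
  · intro h
    choose! s hs using h
    refine ⟨(Finset.range (f v)).sup s, fun x hx => ?_⟩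
    by_cases hlt : x < f v
    · exact Or.inr ⟨s x, Finset.le_sup (f := s) (Finset.mem_range.2 hlt), hs x hlt⟩
    · exact Or.inl hlt
  · rintro ⟨u, hu⟩ x hx
    rcases hu x (le_of_lt hx) with h | ⟨s, -, h⟩
    · exact absurd hx h
    · exact ⟨s, h⟩

/-! ### Pairing and the beta function -/

lemma isD0_pair {n : ℕ} {a b c : (Fin n → ℕ) → ℕ} (ha : IsTm a) (hb : IsTm b) (hc : IsTm c) :
    IsD0 (fun w => Nat.pair (a w) (b w) = c w) := by
  have h1 := ((IsD0.lt ha hb).and (IsD0.eq ((hb.mul hb).add ha) hc)).or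
    ((IsD0.le hb ha).and (IsD0.eq (((ha.mul ha).add ha).add hb) hc))
  refine h1.of_iff fun v => ?_
  rw [Nat.pair]
  split_ifs with h
  · constructor
    · intro e; exact Or.inl ⟨h, e⟩
    · rintro (⟨-, e⟩ | ⟨h', -⟩)
      · exact e
      · omega
  · constructor
    · intro e; exact Or.inr ⟨by omega, e⟩
    · rintro (⟨h', -⟩ | ⟨-, e⟩)
      · omega
      · exact e

lemma beta_eq_iff (c i s : ℕ) : Nat.beta c i = s ↔ ∃ a, a ≤ c ∧ ∃ b, b ≤ c ∧
    Nat.pair a b = c ∧ s < (i + 1) * b + 1 ∧ ∃ q, q ≤ a ∧ a = q * ((i + 1) * b + 1) + s := by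
  constructor
  · intro h
    refine ⟨c.unpair.1, Nat.unpair_left_le c, c.unpair.2, Nat.unpair_right_le c,
      Nat.pair_unpair c, ?_, c.unpair.1 / ((i + 1) * c.unpair.2 + 1), Nat.div_le_self _ _, ?_⟩
    · rw [← h]; exact Nat.mod_lt _ (Nat.succ_pos _)
    · rw [← h, Nat.beta, mul_comm]; exact (Nat.div_add_mod _ _).symm
  · rintro ⟨a, -, b, -, hab, hs, q, -, hq⟩
    rw [← hab, Nat.beta, Nat.unpair_pair]
    simp only
    rw [hq, mul_comm, Nat.mul_add_mod, Nat.mod_eq_of_lt hs]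

lemma isD0_beta : IsD0 (fun w : Fin 3 → ℕ => Nat.beta (w 0) (w 1) = w 2) := by
  -- context w'' = q, b, a, c, i, s
  have h5 : IsD0 (fun w : Fin 6 → ℕ => w 2 = w 0 * ((w 4 + 1) * w 1 + 1) + w 5) :=
    IsD0.eq (IsTm.var _) (((IsTm.var _).mul ((((IsTm.var _).add (IsTm.const 1)).mul
      (IsTm.var _)).add (IsTm.const 1))).add (IsTm.var _))
  have h4 := IsD0.bex (IsTm.var (1 : Fin 5)) h5
  have h3 : IsD0 (fun w : Fin 5 → ℕ => w 4 < (w 3 + 1) * w 0 + 1) :=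
    IsD0.lt (IsTm.var _) ((((IsTm.var _).add (IsTm.const 1)).mul
      (IsTm.var _)).add (IsTm.const 1))
  have h2 : IsD0 (fun w : Fin 5 → ℕ => Nat.pair (w 1) (w 0) = w 2) :=
    isD0_pair (IsTm.var _) (IsTm.var _) (IsTm.var _)
  have h1 := IsD0.bex (IsTm.var (1 : Fin 4)) (h2.and (h3.and h4))
  have h0 := IsD0.bex (IsTm.var (0 : Fin 3)) h1
  exact h0.of_iff fun v => beta_eq_iff _ _ _

lemma isD0_beta' {n : ℕ} {a b c : (Fin n → ℕ) → ℕ} (ha : IsTm a) (hb : IsTm b) (hc : IsTm c) :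
    IsD0 (fun w => Nat.beta (a w) (b w) = c w) := by
  have h := isD0_beta.comp (g := ![a, b, c]) (m := n) (by
    intro i; fin_cases i <;> simpa)
  exact h

/-! ### Graphs of partial recursive functions -/

/-- The graph of a partial function is Sigma_1. -/
def GraphS1 (f : ℕ →. ℕ) : Prop := IsS1 (fun v : Fin 2 → ℕ => v 1 ∈ f (v 0))

lemma GraphS1.app {f : ℕ →. ℕ} (h : GraphS1 f) {n : ℕ} {a b : (Fin n → ℕ) → ℕ} (ha : IsTm a)
    (hb : IsTm b) : IsS1 (fun w => b w ∈ f (a w)) :=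
  IsS1.comp h (g := ![a, b]) (m := n) (by intro i; fin_cases i <;> simpa)

lemma mem_prec_iff (f h : ℕ →. ℕ) (a n v : ℕ) :
    v ∈ (Nat.rec (f a) (fun y IH => IH.bind fun i => h (Nat.pair a (Nat.pair y i))) n : Part ℕ) ↔
    ∃ c, Nat.beta c 0 ∈ f a ∧ (∀ y, y < n → Nat.beta c (y + 1) ∈
      h (Nat.pair a (Nat.pair y (Nat.beta c y)))) ∧ Nat.beta c n = v := by
  constructor
  · intro hv
    have key : ∀ m w, w ∈ (Nat.rec (f a) (fun y IH => IH.bind fun i =>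
        h (Nat.pair a (Nat.pair y i))) m : Part ℕ) → ∃ l : ℕ → ℕ, l 0 ∈ f a ∧
        (∀ y, y < m → l (y + 1) ∈ h (Nat.pair a (Nat.pair y (l y)))) ∧ l m = w := by
      intro m
      induction m with
      | zero => intro w hw; exact ⟨fun _ => w, hw, by simp, rfl⟩
      | succ m ih =>
        intro w hw
        simp only [Part.mem_bind_iff] at hw
        obtain ⟨i, hi, hw⟩ := hw
        obtain ⟨l, h0, h1, h2⟩ := ih i hi
        refine ⟨fun k => if k ≤ m then l k else w, by simpa using h0, fun y hy => ?_, by simp⟩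
        rcases Nat.lt_succ_iff_lt_or_eq.1 hy with hy' | rfl
        · have e1 : y + 1 ≤ m := hy'
          have e2 : y ≤ m := by omega
          simp only [e1, e2, if_true]
          exact h1 y hy'
        · simp only [le_refl, if_true]
          rw [if_neg (by omega), h2]; exact hw
    obtain ⟨l, h0, h1, h2⟩ := key n v hv
    have hb : ∀ i, i ≤ n → Nat.beta (Nat.unbeta (List.ofFn fun i : Fin (n + 1) => l i)) i
        = l i := by
      intro i hi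
      have hlen : i < (List.ofFn fun i : Fin (n + 1) => l i).length := by
        rw [List.length_ofFn]; omega
      have := Nat.beta_unbeta_coe (List.ofFn fun i : Fin (n + 1) => l i) ⟨i, hlen⟩
      rw [this]
      change (List.ofFn fun i : Fin (n + 1) => l i)[i] = l i
      rw [List.getElem_ofFn]
    refine ⟨Nat.unbeta (List.ofFn fun i : Fin (n + 1) => l i), ?_, fun y hy => ?_, ?_⟩
    · rw [hb 0 (Nat.zero_le _)]; exact h0
    · rw [hb (y + 1) hy, hb y (le_of_lt hy)]; exact h1 y hy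
    · rw [hb n le_rfl]; exact h2
  · rintro ⟨c, h0, h1, h2⟩
    have key : ∀ m, m ≤ n → Nat.beta c m ∈ (Nat.rec (f a) (fun y IH => IH.bind fun i =>
        h (Nat.pair a (Nat.pair y i))) m : Part ℕ) := by
      intro m
      induction m with
      | zero => intro _; exact h0
      | succ m ih =>
        intro hm
        exact Part.mem_bind_iff.2 ⟨_, ih (by omega), h1 m hm⟩
    rw [← h2]; exact key n le_rfl

theorem graphS1_of_partrec {f : ℕ →. ℕ} (hf : Nat.Partrec f) : GraphS1 f := by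
  induction hf with
  | zero =>
    refine (IsD0.eq (IsTm.var (1 : Fin 2)) (IsTm.const 0)).s1.of_iff fun v => ?_
    simp [pure, PFun.pure]
  | succ =>
    refine (IsD0.eq (IsTm.var (1 : Fin 2)) ((IsTm.var 0).add (IsTm.const 1))).s1.of_iff
      fun v => ?_
    simp
  | left =>
    have h : IsS1 (fun w : Fin 3 → ℕ => Nat.pair (w 2) (w 0) = w 1) :=
      (isD0_pair (IsTm.var _) (IsTm.var _) (IsTm.var _)).s1
    refine h.ex.of_iff fun v => ?_
    change v 1 ∈ Part.some (v 0).unpair.1 ↔ ∃ x, Nat.pair (v 1) x = v 0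
    rw [Part.mem_some_iff]
    constructor
    · intro e; exact ⟨(v 0).unpair.2, by rw [e, Nat.pair_unpair]⟩
    · rintro ⟨x, hx⟩; rw [← hx, Nat.unpair_pair]
  | right =>
    have h : IsS1 (fun w : Fin 3 → ℕ => Nat.pair (w 0) (w 2) = w 1) :=
      (isD0_pair (IsTm.var _) (IsTm.var _) (IsTm.var _)).s1
    refine h.ex.of_iff fun v => ?_
    change v 1 ∈ Part.some (v 0).unpair.2 ↔ ∃ x, Nat.pair x (v 1) = v 0
    rw [Part.mem_some_iff]
    constructor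
    · intro e; exact ⟨(v 0).unpair.1, by rw [e, Nat.pair_unpair]⟩
    · rintro ⟨x, hx⟩; rw [← hx, Nat.unpair_pair]
  | @pair f g hf hg ihf ihg =>
    -- context b, a, n, v
    have h1 : IsS1 (fun w : Fin 4 → ℕ => w 1 ∈ f (w 2)) := ihf.app (IsTm.var _) (IsTm.var _)
    have h2 : IsS1 (fun w : Fin 4 → ℕ => w 0 ∈ g (w 2)) := ihg.app (IsTm.var _) (IsTm.var _)
    have h3 : IsS1 (fun w : Fin 4 → ℕ => Nat.pair (w 1) (w 0) = w 3) :=
      (isD0_pair (IsTm.var _) (IsTm.var _) (IsTm.var _)).s1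
    refine (h1.and (h2.and h3)).ex.ex.of_iff fun v => ?_
    change v 1 ∈ (Nat.pair <$> f (v 0) <*> g (v 0)) ↔
      ∃ a b, a ∈ f (v 0) ∧ b ∈ g (v 0) ∧ Nat.pair a b = v 1
    simp only [Seq.seq, Functor.map, Part.mem_bind_iff, Part.mem_map_iff]
    constructor
    · rintro ⟨k, ⟨a, ha, rfl⟩, b, hb, e⟩
      exact ⟨a, b, ha, hb, e⟩
    · rintro ⟨a, b, ha, hb, e⟩
      exact ⟨_, ⟨a, ha, rfl⟩, b, hb, e⟩
  | @comp f g hf hg ihf ihg =>
    have h1 : IsS1 (fun w : Fin 3 → ℕ => w 0 ∈ g (w 1)) := ihg.app (IsTm.var _) (IsTm.var _)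
    have h2 : IsS1 (fun w : Fin 3 → ℕ => w 2 ∈ f (w 0)) := ihf.app (IsTm.var _) (IsTm.var _)
    refine (h1.and h2).ex.of_iff fun v => ?_
    change v 1 ∈ (g (v 0)).bind f ↔ ∃ m, m ∈ g (v 0) ∧ v 1 ∈ f m
    exact Part.mem_bind_iff
  | @prec f h hf hh ihf ihh =>
    -- outer context: c, n, a, p, v
    have a1 : IsS1 (fun w : Fin 6 → ℕ => Nat.beta (w 1) 0 = w 0 ∧ w 0 ∈ f (w 3)) :=
      (isD0_beta' (IsTm.var _) (IsTm.const 0) (IsTm.var _)).s1.and
        (ihf.app (IsTm.var _) (IsTm.var _))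
    have a2 : IsS1 (fun w : Fin 5 → ℕ => Nat.beta (w 0) 0 ∈ f (w 2)) := by
      refine a1.ex.of_iff fun v => ?_
      change _ ↔ ∃ x, Nat.beta (v 0) 0 = x ∧ x ∈ f (v 2)
      constructor
      · intro h; exact ⟨_, rfl, h⟩
      · rintro ⟨x, rfl, h⟩; exact h
    -- context: r, q, t, s, y, c, n, a, p, v
    have b1 : IsS1 (fun w : Fin 10 → ℕ => Nat.beta (w 5) (w 4) = w 3 ∧
        Nat.beta (w 5) (w 4 + 1) = w 2 ∧ Nat.pair (w 4) (w 3) = w 1 ∧
        Nat.pair (w 7) (w 1) = w 0 ∧ w 2 ∈ h (w 0)) :=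
      (isD0_beta' (IsTm.var _) (IsTm.var _) (IsTm.var _)).s1.and
      ((isD0_beta' (IsTm.var _) ((IsTm.var _).add (IsTm.const 1)) (IsTm.var _)).s1.and
      ((isD0_pair (IsTm.var _) (IsTm.var _) (IsTm.var _)).s1.and
      ((isD0_pair (IsTm.var _) (IsTm.var _) (IsTm.var _)).s1.and
        (ihh.app (IsTm.var _) (IsTm.var _)))))
    have b2 : IsS1 (fun w : Fin 6 → ℕ => Nat.beta (w 1) (w 0 + 1) ∈
        h (Nat.pair (w 3) (Nat.pair (w 0) (Nat.beta (w 1) (w 0))))) := by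
      refine b1.ex.ex.ex.ex.of_iff fun v => ?_
      change _ ↔ ∃ s t q r, Nat.beta (v 1) (v 0) = s ∧ Nat.beta (v 1) (v 0 + 1) = t ∧
        Nat.pair (v 0) s = q ∧ Nat.pair (v 3) q = r ∧ t ∈ h r
      constructor
      · intro h; exact ⟨_, _, _, _, rfl, rfl, rfl, rfl, h⟩
      · rintro ⟨_, _, _, _, rfl, rfl, rfl, rfl, h⟩; exact h
    have b3 := IsS1.ball (IsTm.var (1 : Fin 5)) b2
    have c1 : IsS1 (fun w : Fin 5 → ℕ => Nat.beta (w 0) (w 1) = w 4) :=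
      (isD0_beta' (IsTm.var _) (IsTm.var _) (IsTm.var _)).s1
    have c2 : IsS1 (fun w : Fin 5 → ℕ => Nat.pair (w 2) (w 1) = w 3) :=
      (isD0_pair (IsTm.var _) (IsTm.var _) (IsTm.var _)).s1
    refine (c2.and (a2.and (b3.and c1))).ex.ex.ex.of_iff fun v => ?_
    change _ ↔ ∃ a n c, Nat.pair a n = v 0 ∧ Nat.beta c 0 ∈ f a ∧
      (∀ y, y < n → Nat.beta c (y + 1) ∈ h (Nat.pair a (Nat.pair y (Nat.beta c y)))) ∧
      Nat.beta c n = v 1
    change v 1 ∈ (Nat.rec (f (v 0).unpair.1) (fun y IH => IH.bind fun i =>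
      h (Nat.pair (v 0).unpair.1 (Nat.pair y i))) (v 0).unpair.2 : Part ℕ) ↔ _
    rw [mem_prec_iff]
    constructor
    · rintro ⟨c, h0, h1, h2⟩
      exact ⟨_, _, c, Nat.pair_unpair _, h0, h1, h2⟩
    · rintro ⟨a, n, c, e, h0, h1, h2⟩
      rw [← e, Nat.unpair_pair]
      exact ⟨c, h0, h1, h2⟩
  | @rfind f hf ihf =>
    -- context: r, a, v
    have a1 : IsS1 (fun w : Fin 4 → ℕ => Nat.pair (w 2) (w 3) = w 1 ∧ w 0 = 0 ∧
        w 0 ∈ f (w 1)) :=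
      (isD0_pair (IsTm.var _) (IsTm.var _) (IsTm.var _)).s1.and
      ((IsD0.eq (IsTm.var _) (IsTm.const 0)).s1.and (ihf.app (IsTm.var _) (IsTm.var _)))
    have a2 : IsS1 (fun v : Fin 2 → ℕ => 0 ∈ f (Nat.pair (v 0) (v 1))) := by
      refine a1.ex.ex.of_iff fun v => ?_
      change _ ↔ ∃ r z, Nat.pair (v 0) (v 1) = r ∧ z = 0 ∧ z ∈ f r
      constructor
      · intro h; exact ⟨_, _, rfl, rfl, h⟩
      · rintro ⟨_, _, rfl, rfl, h⟩; exact h
    -- context: w, r, m, a, v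
    have b1 : IsS1 (fun w : Fin 5 → ℕ => Nat.pair (w 3) (w 2) = w 1 ∧ ¬ (w 0 = 0) ∧
        w 0 ∈ f (w 1)) :=
      (isD0_pair (IsTm.var _) (IsTm.var _) (IsTm.var _)).s1.and
      ((IsD0.eq (IsTm.var _) (IsTm.const 0)).not.s1.and (ihf.app (IsTm.var _) (IsTm.var _)))
    have b2 : IsS1 (fun w : Fin 3 → ℕ => ∃ z, z ≠ 0 ∧ z ∈ f (Nat.pair (w 1) (w 0))) := by
      refine b1.ex.ex.of_iff fun v => ?_
      change _ ↔ ∃ r z, Nat.pair (v 1) (v 0) = r ∧ ¬ (z = 0) ∧ z ∈ f r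
      constructor
      · rintro ⟨z, hz, h⟩; exact ⟨_, z, rfl, hz, h⟩
      · rintro ⟨_, z, rfl, hz, h⟩; exact ⟨z, hz, h⟩
    have b3 := IsS1.ball (IsTm.var (1 : Fin 2)) b2
    refine (a2.and b3).of_iff fun v => ?_
    change v 1 ∈ Nat.rfind (fun n => (fun m => decide (m = 0)) <$> f (Nat.pair (v 0) n)) ↔
      0 ∈ f (Nat.pair (v 0) (v 1)) ∧
      ∀ x, x < v 1 → ∃ z, z ≠ 0 ∧ z ∈ f (Nat.pair (v 0) x)
    rw [Nat.mem_rfind]
    refine and_congr ?_ (forall_congr' fun x => ?_)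
    · simp only [Functor.map, Part.mem_map_iff]
      constructor
      · rintro ⟨a, ha, h⟩
        have : a = 0 := by simpa using h
        rw [← this]; exact ha
      · intro h; exact ⟨0, h, by simp⟩
    · constructor
      · intro H hx
        have := H hx
        simp only [Functor.map, Part.mem_map_iff] at this
        obtain ⟨a, ha, h⟩ := this
        exact ⟨a, by simpa using h, ha⟩
      · intro H hx
        obtain ⟨z, hz, h⟩ := H hx
        simp only [Functor.map, Part.mem_map_iff]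
        exact ⟨z, h, by simpa using hz⟩

end Pool.Agent.Helper10.PA
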