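import Mathlib
import Pool.Agent.Helper10.PA.Sigma1

/-! Rosser: one formula separating, in every model of Robinson arithmetic, two disjoint r.e. sets. -/

namespace Pool.Agent.Helper10.PA

universe u

/-- The Rosser formula in the context `(s, e)`: `α(s,e) ∧ ¬ ∃ t ≤ s, β(t,e)`. -/
def rosserD0 (α β : D0 2) : D0 2 :=
  .and α (.neg (.bex (.var 0) (β.subst ![.var 0, .var 2])))

lemma rosserD0_eval {M : Type*} (A : AStr M) (α β : D0 2) (s e : M) :
    (rosserD0 α β).eval A ![s, e] ↔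
      α.eval A ![s, e] ∧ ¬ ∃ t, (∃ z, A.add z t = s) ∧ β.eval A ![t, e] := by
  have key : ∀ t : M, (fun i => ((![Tm.var 0, Tm.var 2] : Fin 2 → Tm 3) i).eval A
      (Fin.cons t ![s, e])) = ![t, e] := by
    intro t; funext i; fin_cases i <;> rfl
  simp only [rosserD0, D0.eval, D0.eval_subst, key]
  rfl

lemma vec_num {M : Type*} (A : AStr M) (s e : ℕ) :
    (![num A s, num A e] : Fin 2 → M) = fun i => num A ((![s, e] : Fin 2 → ℕ) i) := by
  funext i; fin_cases i <;> rfl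

/-- Rosser separation. -/
theorem rosser {P R : ℕ → Prop} (hP : IsS1 (fun v : Fin 1 → ℕ => P (v 0)))
    (hR : IsS1 (fun v : Fin 1 → ℕ => R (v 0))) (hdis : ∀ e, P e → R e → False) :
    ∃ ρ : D0 2, ∀ (M : Type u) (A : AStr M), IsQ A → ∀ e : ℕ,
      (P e → ∃ s, ρ.eval A ![s, num A e]) ∧ (R e → ¬ ∃ s, ρ.eval A ![s, num A e]) := by
  obtain ⟨Q1, ⟨α, hα⟩, hP⟩ := hP
  obtain ⟨Q2, ⟨β, hβ⟩, hR⟩ := hR
  have hα' : ∀ s e, α.eval natA ![s, e] ↔ Q1 ![s, e] := fun s e => hα _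
  have hβ' : ∀ s e, β.eval natA ![s, e] ↔ Q2 ![s, e] := fun s e => hβ _
  have hP' : ∀ e, P e ↔ ∃ s, Q1 ![s, e] := fun e => hP ![e]
  have hR' : ∀ e, R e ↔ ∃ s, Q2 ![s, e] := fun e => hR ![e]
  refine ⟨rosserD0 α β, fun M A hA e => ⟨fun hPe => ?_, fun hRe => ?_⟩⟩
  · obtain ⟨s, hs⟩ := (hP' e).1 hPe
    refine ⟨num A s, (rosserD0_eval A α β _ _).2 ⟨?_, ?_⟩⟩
    · rw [vec_num, D0.eval_num hA]; exact (hα' s e).2 hs
    · rintro ⟨t, ⟨z, hz⟩, ht⟩
      obtain ⟨k, -, rfl⟩ := exists_of_le_num hA hz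
      rw [vec_num, D0.eval_num hA] at ht
      exact hdis e hPe ((hR' e).2 ⟨k, (hβ' k e).1 ht⟩)
  · rintro ⟨s, hs⟩
    rw [rosserD0_eval] at hs
    obtain ⟨h1, h2⟩ := hs
    obtain ⟨k, hk⟩ := (hR' e).1 hRe
    have hk' : β.eval A ![num A k, num A e] := by
      rw [vec_num, D0.eval_num hA]; exact (hβ' k e).2 hk
    rcases le_or_num_le hA k s with ⟨z, hz⟩ | ⟨z, hz⟩
    · obtain ⟨j, -, rfl⟩ := exists_of_le_num hA hz
      rw [vec_num, D0.eval_num hA] at h1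
      exact hdis e ((hP' e).2 ⟨j, (hα' j e).1 h1⟩) hRe
    · exact h2 ⟨num A k, ⟨z, hz⟩, hk'⟩

/-- The diagonal function `e ↦ φ_e(e)` of the standard numbering of partial recursive functions. -/
def diagU (e : ℕ) : Part ℕ := (Denumerable.ofNat Nat.Partrec.Code e).eval e

lemma partrec_diagU : Nat.Partrec diagU := by
  have h : Partrec fun e : ℕ => (Denumerable.ofNat Nat.Partrec.Code e).eval e :=
    Nat.Partrec.Code.eval_part.comp (Computable.ofNat _) Computable.id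
  exact Partrec.nat_iff.1 h

lemma isS1_diagU (i : ℕ) : IsS1 (fun v : Fin 1 → ℕ => i ∈ diagU (v 0)) :=
  (graphS1_of_partrec partrec_diagU).app (IsTm.var 0) (IsTm.const i)

/-- One Delta_0 formula `ρ(s, e)` such that in every model of Robinson arithmetic `∃ s, ρ(s, e)`
holds if `φ_e(e) = 0` and fails if `φ_e(e) = 1`. -/
theorem rosser_diag : ∃ ρ : D0 2, ∀ (M : Type u) (A : AStr M), IsQ A → ∀ e : ℕ,
      (0 ∈ diagU e → ∃ s, ρ.eval A ![s, num A e]) ∧
      (1 ∈ diagU e → ¬ ∃ s, ρ.eval A ![s, num A e]) := by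
  refine rosser (isS1_diagU 0) (isS1_diagU 1) fun e h0 h1 => ?_
  have := Part.mem_unique h0 h1
  omega

end Pool.Agent.Helper10.PA
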